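import Pool.Agent.Work.MP_2738db_nt_ZZ.Interface
import Pool.Agent.Work.MP_2738db_nt_V.BTAP

/-!
Block BTR (helper45): reciprocals of the primes `1` modulo `p`, from the Brun-Titchmarsh inequality
of `MP_2738db_nt_V/BTAP.lean` on dyadic intervals.
-/

set_option autoImplicit false

namespace Pool.Agent.Work.MP_2738db_nt_ZZ.helper45

open Finset

theorem btr_box (p z N j : ℕ) (hp : p.Prime) (hz : 3 ≤ z) (hpz : p ^ 2 ≤ z) :
    ∑ r ∈ ((Ioc z N).filter (fun r => r.Prime ∧ r % p = 1)).filter (fun r => Nat.log 2 r = j),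
      (1 : ℝ) / r ≤ 880 / (p * Real.log 2) * (1 / (j : ℝ)) := by
  classical
  have hlog2 : 0 < Real.log 2 := Real.log_pos (by norm_num)
  have hpR : (2 : ℝ) ≤ p := by exact_mod_cast hp.two_le
  obtain ⟨Pj, hPj⟩ : ∃ Pj, Pj = ((Ioc z N).filter (fun r => r.Prime ∧ r % p = 1)).filter
    (fun r => Nat.log 2 r = j) := ⟨_, rfl⟩
  rw [← hPj]
  rcases Pj.eq_empty_or_nonempty with h0 | ⟨r0, hr0⟩
  · rw [h0, sum_empty]
    positivity
  -- the elements of the box
  have hmem : ∀ r ∈ Pj, 2 ^ j ≤ r ∧ r < 2 ^ (j + 1) ∧ r.Prime ∧ r % p = 1 ∧ z < r := by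
    intro r hr
    rw [hPj, mem_filter, mem_filter, mem_Ioc] at hr
    have h3 : 2 ^ Nat.log 2 r ≤ r := Nat.pow_log_le_self 2 (by omega)
    have h4 : r < 2 ^ (Nat.log 2 r + 1) := Nat.lt_pow_succ_log_self (by norm_num) r
    rw [hr.2] at h3 h4
    exact ⟨h3, h4, hr.1.2.1, hr.1.2.2, hr.1.1.1⟩
  obtain ⟨-, hr2, -, -, hr5⟩ := hmem r0 hr0
  have hj2 : 2 ≤ j := by
    by_contra hj
    have h1 : j + 1 ≤ 2 := by omega
    have h2 : 2 ^ (j + 1) ≤ 2 ^ 2 := Nat.pow_le_pow_right (by norm_num) h1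
    omega
  have hjR : (2 : ℝ) ≤ j := by exact_mod_cast hj2
  have hpsq : p ^ 2 ≤ 2 ^ (j + 1) := by omega
  have hple : p ≤ 2 ^ j := by
    have h1 : 2 ^ (j + 1) ≤ 2 ^ (j * 2) := Nat.pow_le_pow_right (by norm_num) (by omega)
    rw [pow_mul] at h1
    exact (Nat.pow_le_pow_iff_left (by norm_num)).mp (hpsq.trans h1)
  have hcard : (Pj.card : ℝ) ≤
      110 * ((2 ^ j / p + 1 : ℕ) : ℝ) / Real.log ((2 ^ j / p + 1 : ℕ) : ℝ) := by
    refine le_trans ?_ (MP_2738db_nt_V.bt_ap hp (2 ^ j - 1) (2 ^ j) hple)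
    have h5 : Pj ⊆ (Ioc (2 ^ j - 1) (2 ^ j - 1 + 2 ^ j)).filter
        (fun r => r.Prime ∧ r % p = 1) := by
      intro r hr
      obtain ⟨e1, e2, e3, e4, -⟩ := hmem r hr
      rw [mem_filter, mem_Ioc]
      have h6 : 1 ≤ 2 ^ j := Nat.one_le_two_pow
      rw [pow_succ] at e2
      exact ⟨⟨by omega, by omega⟩, e3, e4⟩
    exact_mod_cast card_le_card h5
  -- size of `h`
  obtain ⟨H, hH⟩ : ∃ H, H = 2 ^ j / p + 1 := ⟨_, rfl⟩
  rw [← hH] at hcard
  have h2jR : (0 : ℝ) < 2 ^ j := by positivity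
  have hp0 : (0 : ℝ) < p := by linarith
  have hHle : (H : ℝ) ≤ 2 * (2 ^ j / p) := by
    have h5 : ((2 ^ j / p : ℕ) : ℝ) ≤ (2 : ℝ) ^ j / p := by
      have := Nat.cast_div_le (α := ℝ) (m := 2 ^ j) (n := p)
      push_cast at this
      exact this
    have h6 : (1 : ℝ) ≤ 2 ^ j / p := by
      rw [one_le_div hp0]
      exact_mod_cast hple
    rw [hH]; push_cast at h5 ⊢; linarith
  have hHge : (2 : ℝ) ^ j / p ≤ H := by
    rw [div_le_iff₀ hp0]
    have h5 : 2 ^ j < (2 ^ j / p + 1) * p := by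
      have := Nat.lt_div_mul_add (a := 2 ^ j) hp.pos
      rw [add_mul, one_mul]; omega
    rw [← hH] at h5
    exact_mod_cast h5.le
  have hlogH : j * Real.log 2 / 4 ≤ Real.log H := by
    have h5 : Real.log ((2 : ℝ) ^ j / p) ≤ Real.log H := Real.log_le_log (by positivity) hHge
    rw [Real.log_div (by positivity) (by positivity), Real.log_pow] at h5
    have h6 : 2 * Real.log p ≤ (j + 1) * Real.log 2 := by
      have h7 : (p : ℝ) ^ 2 ≤ 2 ^ (j + 1) := by exact_mod_cast hpsq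
      have h8 := Real.log_le_log (by positivity) h7
      rw [Real.log_pow, Real.log_pow] at h8
      push_cast at h8
      exact h8
    nlinarith
  have hjl : 0 < j * Real.log 2 := by positivity
  calc ∑ r ∈ Pj, 1 / (r : ℝ) ≤ ∑ r ∈ Pj, 1 / (2 : ℝ) ^ j := by
        apply sum_le_sum
        intro r hr
        apply one_div_le_one_div_of_le h2jR
        exact_mod_cast (hmem r hr).1
    _ = Pj.card * (1 / (2 : ℝ) ^ j) := by rw [sum_const, nsmul_eq_mul]
    _ ≤ (110 * (H : ℝ) / Real.log H) * (1 / (2 : ℝ) ^ j) :=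
        mul_le_mul_of_nonneg_right hcard (by positivity)
    _ ≤ (110 * (2 * (2 ^ j / p)) / (j * Real.log 2 / 4)) * (1 / (2 : ℝ) ^ j) := by
        apply mul_le_mul_of_nonneg_right _ (by positivity)
        apply div_le_div₀ (by positivity) (by linarith) (by positivity) hlogH
    _ = 880 / (p * Real.log 2) * (1 / (j : ℝ)) := by
        field_simp
        norm_num

theorem btr : Stmt_Btr := by
  classical
  have hlog2 : 0 < Real.log 2 := Real.log_pos (by norm_num)
  refine ⟨1760 / Real.log 2, ?_, ?_⟩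
  · rw [one_le_div hlog2]
    linarith [Real.log_two_lt_d9]
  intro p z N hp hz hpz hzN
  have hpR : (2 : ℝ) ≤ p := by exact_mod_cast hp.two_le
  have hN3 : (3 : ℝ) ≤ N := by exact_mod_cast hz.trans hzN
  have hlogN : 0 ≤ Real.log N := Real.log_natCast_nonneg N
  have hmaps : ∀ r ∈ (Ioc z N).filter (fun r => r.Prime ∧ r % p = 1),
      Nat.log 2 r ∈ Icc 1 (Nat.log 2 N) := by
    intro r hr
    rw [mem_filter, mem_Ioc] at hr
    rw [mem_Icc]
    exact ⟨Nat.le_log_of_pow_le (by norm_num) (by omega), Nat.log_mono_right hr.1.2⟩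
  rw [← sum_fiberwise_of_maps_to hmaps]
  refine (sum_le_sum fun j _ => btr_box p z N j hp hz hpz).trans ?_
  rw [← mul_sum]
  have hh : ∑ j ∈ Icc 1 (Nat.log 2 N), (1 : ℝ) / (j : ℝ) ≤ 1 + Real.log (Nat.log 2 N) := by
    have h1 := harmonic_le_one_add_log (Nat.log 2 N)
    rw [harmonic_eq_sum_Icc] at h1
    push_cast at h1
    refine le_trans (le_of_eq ?_) h1
    exact sum_congr rfl fun j _ => one_div _
  have hJ1 : 1 ≤ Nat.log 2 N := Nat.le_log_of_pow_le (by norm_num) (by omega)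
  have hJR : (1 : ℝ) ≤ Nat.log 2 N := by exact_mod_cast hJ1
  have hJ : (Nat.log 2 N : ℝ) ≤ 2 * (1 + Real.log N) := by
    have h1 : (Nat.log 2 N : ℝ) * Real.log 2 ≤ Real.log N := by
      rw [← Real.log_pow]
      apply Real.log_le_log (by positivity)
      exact_mod_cast Nat.pow_log_le_self 2 (by omega)
    nlinarith [Real.log_two_gt_d9]
  have hlogJ : Real.log (Nat.log 2 N) ≤ Real.log 2 + Real.log (1 + Real.log N) := by
    rw [← Real.log_mul (by norm_num) (by positivity)]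
    exact Real.log_le_log (by linarith) hJ
  have hll : 0 ≤ Real.log (1 + Real.log N) := Real.log_nonneg (by linarith)
  have hfin : ∑ j ∈ Icc 1 (Nat.log 2 N), (1 : ℝ) / (j : ℝ) ≤
      2 * (1 + Real.log (1 + Real.log N)) := by
    linarith [Real.log_two_lt_d9]
  calc 880 / (p * Real.log 2) * ∑ j ∈ Icc 1 (Nat.log 2 N), (1 : ℝ) / (j : ℝ)
      ≤ 880 / (p * Real.log 2) * (2 * (1 + Real.log (1 + Real.log N))) :=
        mul_le_mul_of_nonneg_left hfin (by positivity)
    _ = 1760 / Real.log 2 * (1 + Real.log (1 + Real.log N)) / p := by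
        field_simp
        norm_num

end Pool.Agent.Work.MP_2738db_nt_ZZ.helper45
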